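import Pool.Agent.K1H76.DK.Stm

/-!
# Bounds for the local factors `∑ (e + 1) ^ m / p ^ e`
-/

set_option autoImplicit false

namespace Pool.Agent.K1H9.DK

open Finset Filter Topology Pool.Agent.K1H76.DK

theorem exp25 : Real.exp (2 / 5) ≤ 3 / 2 := by
  have h1 : Real.exp (2 / 5) ^ 5 ≤ (3 / 2 : ℝ) ^ 5 := by
    rw [← Real.exp_nat_mul]
    have h2 : ((5 : ℕ) : ℝ) * (2 / 5) = 1 + 1 := by norm_num
    rw [h2, Real.exp_add]
    have h3 := Real.exp_one_lt_d9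
    have h4 := Real.exp_pos 1
    nlinarith
  exact (pow_le_pow_iff_left₀ (Real.exp_pos _).le (by norm_num) (by norm_num)).1 h1

theorem pow_bound (m e : ℕ) :
    ((e : ℝ) + 1) ^ m ≤ (m.factorial : ℝ) * (5 / 2) ^ m * (3 / 2) ^ (e + 1) := by
  have h1 := Real.pow_div_factorial_le_exp (2 / 5 * ((e : ℝ) + 1)) (by positivity) m
  have h2 : Real.exp (2 / 5 * ((e : ℝ) + 1)) ≤ (3 / 2) ^ (e + 1) := by
    have h : 2 / 5 * ((e : ℝ) + 1) = ((e + 1 : ℕ) : ℝ) * (2 / 5) := by push_cast; ring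
    rw [h, Real.exp_nat_mul]
    exact pow_le_pow_left₀ (Real.exp_pos _).le exp25 _
  have h3 : (2 / 5 * ((e : ℝ) + 1)) ^ m ≤ (3 / 2) ^ (e + 1) * (m.factorial : ℝ) := by
    have h := h1.trans h2
    rwa [div_le_iff₀ (by positivity)] at h
  have h4 : ((e : ℝ) + 1) ^ m = (5 / 2) ^ m * (2 / 5 * ((e : ℝ) + 1)) ^ m := by
    rw [← mul_pow]
    congr 1
    ring
  rw [h4]
  calc (5 / 2 : ℝ) ^ m * (2 / 5 * ((e : ℝ) + 1)) ^ m
      ≤ (5 / 2) ^ m * ((3 / 2) ^ (e + 1) * (m.factorial : ℝ)) :=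
        mul_le_mul_of_nonneg_left h3 (by positivity)
    _ = (m.factorial : ℝ) * (5 / 2) ^ m * (3 / 2) ^ (e + 1) := by ring

theorem term_bound (m p : ℕ) (hp : 2 ≤ p) (e : ℕ) :
    ((e : ℝ) + 1) ^ m / (p : ℝ) ^ e ≤
      (m.factorial : ℝ) * (5 / 2) ^ m * (3 / 2) * (3 / 4) ^ e := by
  have hp' : (2 : ℝ) ≤ p := by exact_mod_cast hp
  have hp0 : (0 : ℝ) < p := by linarith
  have h2 : (2 : ℝ) ^ e ≤ (p : ℝ) ^ e := pow_le_pow_left₀ (by norm_num) hp' e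
  rw [div_le_iff₀ (by positivity)]
  refine (pow_bound m e).trans ?_
  have h3 : (3 / 2 : ℝ) ^ (e + 1) = (3 / 2) * ((3 / 4) ^ e * 2 ^ e) := by
    rw [← mul_pow, pow_succ]
    norm_num
    ring
  rw [h3]
  calc (m.factorial : ℝ) * (5 / 2) ^ m * ((3 / 2) * ((3 / 4) ^ e * 2 ^ e))
      = (m.factorial : ℝ) * (5 / 2) ^ m * (3 / 2) * (3 / 4) ^ e * 2 ^ e := by ring
    _ ≤ (m.factorial : ℝ) * (5 / 2) ^ m * (3 / 2) * (3 / 4) ^ e * (p : ℝ) ^ e :=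
        mul_le_mul_of_nonneg_left h2 (by positivity)

theorem summ (m p : ℕ) (hp : 2 ≤ p) :
    Summable (fun e : ℕ => ((e : ℝ) + 1) ^ m / (p : ℝ) ^ e) :=
  Summable.of_nonneg_of_le (fun e => by positivity) (term_bound m p hp)
    ((summable_geometric_of_lt_one (by norm_num) (by norm_num)).mul_left _)

theorem six (m : ℕ) (hm : 1 ≤ m) : 6 * (5 / 2 : ℝ) ^ m ≤ 16 ^ m := by
  obtain ⟨j, rfl⟩ : ∃ j, m = j + 1 := ⟨m - 1, by omega⟩
  have h : (5 / 2 : ℝ) ^ j ≤ 16 ^ j := pow_le_pow_left₀ (by norm_num) (by norm_num) j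
  have h0 : (0 : ℝ) ≤ 16 ^ j := by positivity
  rw [pow_succ, pow_succ]
  linarith

theorem part1 (m p : ℕ) (hm : 1 ≤ m) (hp : 2 ≤ p) :
    ∑' e : ℕ, ((e : ℝ) + 1) ^ m / (p : ℝ) ^ e ≤ (16 * (m : ℝ)) ^ m := by
  have hg : Summable (fun e : ℕ =>
      (m.factorial : ℝ) * (5 / 2) ^ m * (3 / 2) * (3 / 4 : ℝ) ^ e) :=
    (summable_geometric_of_lt_one (by norm_num) (by norm_num)).mul_left _
  have h1 := Summable.tsum_le_tsum (term_bound m p hp) (summ m p hp) hg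
  rw [tsum_mul_left, tsum_geometric_of_lt_one (by norm_num) (by norm_num)] at h1
  refine h1.trans ?_
  have hf : (m.factorial : ℝ) ≤ (m : ℝ) ^ m := by exact_mod_cast Nat.factorial_le_pow m
  have h6 := six m hm
  rw [mul_pow]
  calc (m.factorial : ℝ) * (5 / 2) ^ m * (3 / 2) * (1 - 3 / 4)⁻¹
      = (m.factorial : ℝ) * (6 * (5 / 2) ^ m) := by norm_num; ring
    _ ≤ (m : ℝ) ^ m * 16 ^ m := mul_le_mul hf h6 (by positivity) (by positivity)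
    _ = 16 ^ m * (m : ℝ) ^ m := by ring

theorem two_three (m : ℕ) (hm : 3 ≤ m) : 2 * (3 / 2 : ℝ) ^ m ≤ 2 ^ m := by
  obtain ⟨j, rfl⟩ : ∃ j, m = j + 3 := ⟨m - 3, by omega⟩
  have h : (3 / 2 : ℝ) ^ j ≤ 2 ^ j := pow_le_pow_left₀ (by norm_num) (by norm_num) j
  have h0 : (0 : ℝ) ≤ 2 ^ j := by positivity
  rw [pow_add, pow_add]
  norm_num
  linarith

theorem tail_bound (m p : ℕ) (hm : 3 ≤ m) (hp : 2 ^ m ≤ p) (e : ℕ) :
    (((e + 1 : ℕ) : ℝ) + 1) ^ m / (p : ℝ) ^ (e + 1) ≤ 2 ^ m / p * (1 / 2) ^ e := by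
  have hp' : (2 : ℝ) ^ m ≤ p := by exact_mod_cast hp
  have hp0 : (0 : ℝ) < p := lt_of_lt_of_le (by positivity) hp'
  induction e with
  | zero => norm_num
  | succ e ih =>
    have h1 : (((e + 1 + 1 : ℕ) : ℝ) + 1) ≤ 3 / 2 * (((e + 1 : ℕ) : ℝ) + 1) := by
      push_cast
      have h0 : (0 : ℝ) ≤ (e : ℝ) := Nat.cast_nonneg e
      linarith
    have h2 : (((e + 1 + 1 : ℕ) : ℝ) + 1) ^ m ≤ (3 / 2) ^ m * (((e + 1 : ℕ) : ℝ) + 1) ^ m := by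
      rw [← mul_pow]
      exact pow_le_pow_left₀ (by positivity) h1 m
    have h3 : (3 / 2 : ℝ) ^ m / p ≤ 1 / 2 := by
      rw [div_le_iff₀ hp0]
      have h := two_three m hm
      linarith
    calc (((e + 1 + 1 : ℕ) : ℝ) + 1) ^ m / (p : ℝ) ^ (e + 1 + 1)
        ≤ ((3 / 2) ^ m * (((e + 1 : ℕ) : ℝ) + 1) ^ m) / (p : ℝ) ^ (e + 1 + 1) :=
          div_le_div_of_nonneg_right h2 (by positivity)
      _ = ((3 / 2) ^ m / p) * ((((e + 1 : ℕ) : ℝ) + 1) ^ m / (p : ℝ) ^ (e + 1)) := by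
          rw [div_mul_div_comm, pow_succ (p : ℝ) (e + 1), mul_comm ((p : ℝ) ^ (e + 1)) (p : ℝ)]
      _ ≤ (1 / 2) * (2 ^ m / p * (1 / 2) ^ e) := mul_le_mul h3 ih (by positivity) (by norm_num)
      _ = 2 ^ m / p * (1 / 2) ^ (e + 1) := by rw [pow_succ]; ring

theorem part2 (m p : ℕ) (hm : 3 ≤ m) (hp : 2 ^ m ≤ p) :
    ∑' e : ℕ, ((e : ℝ) + 1) ^ m / (p : ℝ) ^ e ≤ Real.exp (2 ^ (m + 1) / p) := by
  have h2p : 2 ≤ p := by
    have h : 2 ^ 1 ≤ 2 ^ m := Nat.pow_le_pow_right (by norm_num) (by omega)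
    omega
  have hs := summ m p h2p
  rw [hs.tsum_eq_zero_add]
  have hg : Summable (fun e : ℕ => (2 : ℝ) ^ m / p * (1 / 2 : ℝ) ^ e) :=
    (summable_geometric_of_lt_one (by norm_num) (by norm_num)).mul_left _
  have hs' : Summable (fun e : ℕ => (((e + 1 : ℕ) : ℝ) + 1) ^ m / (p : ℝ) ^ (e + 1)) :=
    (summable_nat_add_iff 1).2 hs
  have h1 := Summable.tsum_le_tsum (tail_bound m p hm hp) hs' hg
  rw [tsum_mul_left, tsum_geometric_of_lt_one (by norm_num) (by norm_num)] at h1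
  have h3 : (((0 : ℕ) : ℝ) + 1) ^ m / (p : ℝ) ^ 0 = 1 := by norm_num
  rw [h3]
  have h4 : (2 : ℝ) ^ m / p * (1 - 1 / 2)⁻¹ = 2 ^ (m + 1) / p := by
    rw [pow_succ]
    norm_num
    ring
  rw [h4] at h1
  have h5 := Real.add_one_le_exp ((2 : ℝ) ^ (m + 1) / p)
  linarith

/-- **Piece FAC.** -/
theorem t_FAC : S_FAC :=
  ⟨fun m p hm hp => ⟨summ m p hp, part1 m p hm hp⟩, part2⟩

end Pool.Agent.K1H9.DK
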